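import Pool.Agent.Schubert.PathMain

/-!
# A Cohen–Macaulay union of Schubert varieties which does not deform to an irreducible variety

Let `G = SL₂ × SL₂ × SL₂ × SL₂` and `P = B`, so that `G/P = (ℙ¹)⁴`.  Let `S` consist of the three
elements of the Weyl group `(ℤ/2)⁴` given by the subsets `{0,1}`, `{1,2}`, `{2,3}` of the set of
factors.  Then `X_S` is Cohen–Macaulay, but it is not the special fibre of a flat family of closed
subschemes of `G/P` over an irreducible curve whose general fibre is reduced and irreducible.

The reason: if `X_S` deforms to an irreducible variety, then the subsets of the members of `S` are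
the independent sets of an algebraic matroid, while the path with three edges is not a matroid.
-/

open Pool.Agent.Schubert

namespace Pool.Agent.Results.MP_c10209_ag.PathNotDeform

theorem result :
    IsCohenMacaulayScheme (XS ({{0, 1}, {1, 2}, {2, 3}} : Finset (Finset (Fin 4)))).left ∧
    ¬ DeformsToIrreducible (XSι ({{0, 1}, {1, 2}, {2, 3}} : Finset (Finset (Fin 4)))) :=
  ⟨isCohenMacaulayScheme_path, not_deformsToIrreducible_path⟩

end Pool.Agent.Results.MP_c10209_ag.PathNotDeform
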